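import Pool.Agent.Lib.MP_12eaff_co.Frz.BK.Defs

set_option autoImplicit false
set_option linter.unusedSectionVars false

namespace Pool.Agent.Lib.MP_12eaff_co.Frz.Acc

open Finset Pool.Agent.Lib.MP_12eaff_co.Frz.BK
open scoped Classical

variable {V : Type} [Fintype V]

/-- The hole `v` takes the colour of `u`, and `u` becomes the hole. -/
noncomputable def shift (D : ℕ) (f : V → ℕ) (v u : V) : V → ℕ :=
  Function.update (Function.update f v (f u)) u D

/-- Level tree of hole shifts.  `col v` is the state `s(v)`; values `≥ D` mean uncoloured. -/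
structure Tr (G : SimpleGraph V) (D : ℕ) where
  R : Finset V
  r : V
  c : V → ℕ
  p : V → V
  d : V → ℕ
  col : V → V → ℕ
  O : V → Finset V
  X : V → Finset V
  r_mem : r ∈ R
  d_r : d r = 0
  p_r : p r = r
  c_r : c r = D
  col_r : col r = c
  base : PCol G D c
  p_mem : ∀ v ∈ R, v ≠ r → p v ∈ R
  d_p : ∀ v ∈ R, v ≠ r → d v = d (p v) + 1
  arc_p : ∀ v ∈ R, v ≠ r → v ∈ O (p v) ∨ v ∈ X (p v)
  col_p : ∀ v ∈ R, v ≠ r → col v = shift D (col (p v)) (p v) v
  O_adj : ∀ v ∈ R, ∀ u ∈ O v, G.Adj v u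
  X_nadj : ∀ v ∈ R, ∀ u ∈ X v, ¬ G.Adj v u
  lt : ∀ v ∈ R, ∀ u, u ∈ O v ∨ u ∈ X v → col v u < D
  uniq : ∀ v ∈ R, ∀ u, u ∈ O v ∨ u ∈ X v → ∀ m, G.Adj v m → m ≠ u → col v m ≠ col v u
  ne_p : ∀ v ∈ R, ∀ u, u ∈ O v ∨ u ∈ X v → col v u ≠ col v (p v)
  clo : ∀ v ∈ R, ∀ u, u ∈ O v ∨ u ∈ X v → u ∈ R ∧ d u ≤ d v + 1

namespace Tr

variable {G : SimpleGraph V} {D : ℕ} (T : Tr G D)

/-- `Anc a v`: `a` is `v` or an ancestor of `v`. -/
inductive Anc : V → V → Prop
  | refl (v : V) : v ∈ T.R → Anc v v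
  | step (a v : V) : v ∈ T.R → v ≠ T.r → Anc a (T.p v) → Anc a v

/-- Children. -/
noncomputable def ch (w : V) : Finset V := T.R.filter (fun x => x ≠ T.r ∧ T.p x = w)

/-- Hidden set: coloured neighbours outside `O w` and the parent. -/
noncomputable def H (w : V) : Finset V :=
  (nb G w).filter (fun m => T.col w m < D ∧ m ∉ T.O w ∧ m ≠ T.p w)

theorem mem_ch {w x : V} : x ∈ T.ch w ↔ x ∈ T.R ∧ x ≠ T.r ∧ T.p x = w := by
  simp [ch]

theorem mem_H {w m : V} :
    m ∈ T.H w ↔ G.Adj w m ∧ T.col w m < D ∧ m ∉ T.O w ∧ m ≠ T.p w := by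
  simp [H]

theorem ind {P : V → Prop} (h0 : P T.r) (h1 : ∀ v ∈ T.R, v ≠ T.r → P (T.p v) → P v) :
    ∀ v ∈ T.R, P v := by
  have : ∀ n, ∀ v ∈ T.R, T.d v = n → P v := by
    intro n
    induction n with
    | zero =>
      intro v hv hd
      by_cases h : v = T.r
      · exact h ▸ h0
      · have := T.d_p v hv h; omega
    | succ n ih =>
      intro v hv hd
      by_cases h : v = T.r
      · exact h ▸ h0
      · have := T.d_p v hv h
        exact h1 v hv h (ih _ (T.p_mem v hv h) (by omega))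
  exact fun v hv => this _ v hv rfl

variable {T}

theorem Anc.mem {a v : V} (h : T.Anc a v) : a ∈ T.R ∧ v ∈ T.R := by
  induction h with
  | refl hv => exact ⟨hv, hv⟩
  | step v hv _ _ ih => exact ⟨ih.1, hv⟩

theorem Anc.le {a v : V} (h : T.Anc a v) : T.d a ≤ T.d v := by
  induction h with
  | refl _ => exact le_rfl
  | step v hv hr _ ih => have := T.d_p v hv hr; omega

theorem Anc.cases' {a v : V} (h : T.Anc a v) : a = v ∨ (v ≠ T.r ∧ T.Anc a (T.p v)) := by
  cases h with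
  | refl _ => exact Or.inl rfl
  | step _ _ hr h => exact Or.inr ⟨hr, h⟩

theorem Anc.eq_of_d {a v : V} (h : T.Anc a v) (hd : T.d v ≤ T.d a) : a = v := by
  rcases h.cases' with h1 | ⟨hr, h1⟩
  · exact h1
  · have := T.d_p v h.mem.2 hr
    have := h1.le
    omega

theorem Anc.lt {a v : V} (h : T.Anc a v) (hne : a ≠ v) : T.d a < T.d v := by
  by_contra hc
  exact hne (h.eq_of_d (by omega))

theorem Anc.trans {a b v : V} (h1 : T.Anc a b) (h2 : T.Anc b v) : T.Anc a v := by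
  induction h2 with
  | refl _ => exact h1
  | step v hv hr _ ih => exact Anc.step a v hv hr ih

theorem anc_p {v : V} (hv : v ∈ T.R) (hr : v ≠ T.r) : T.Anc (T.p v) v :=
  Anc.step _ v hv hr (Anc.refl _ (T.p_mem v hv hr))

theorem anc_r {v : V} (hv : v ∈ T.R) : T.Anc T.r v :=
  T.ind (P := fun v => T.Anc T.r v) (Anc.refl _ T.r_mem)
    (fun v hv hr h => Anc.step _ v hv hr h) v hv

/-- Two ancestors of one vertex are comparable. -/
theorem Anc.comp {a b v : V} (h1 : T.Anc a v) (h2 : T.Anc b v) (hd : T.d a ≤ T.d b) :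
    T.Anc a b := by
  induction h2 with
  | refl _ => exact h1
  | step v hv hr h2 ih =>
    rcases h1.cases' with h | ⟨_, h⟩
    · subst h
      have := T.d_p a hv hr
      have := h2.le
      omega
    · exact ih h

/-- The child of `a` towards `v`. -/
theorem Anc.child {a v : V} (h : T.Anc a v) (hne : a ≠ v) :
    ∃ x, x ∈ T.ch a ∧ T.Anc x v := by
  induction h with
  | refl _ => exact absurd rfl hne
  | step v hv hr h ih =>
    by_cases h1 : a = T.p v
    · exact ⟨v, T.mem_ch.2 ⟨hv, hr, h1.symm⟩, Anc.refl v hv⟩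
    · obtain ⟨x, hx, hx2⟩ := ih h1
      exact ⟨x, hx, Anc.step x v hv hr hx2⟩

theorem d_ch {w x : V} (h : x ∈ T.ch w) : T.d x = T.d w + 1 := by
  obtain ⟨h1, h2, h3⟩ := T.mem_ch.1 h
  rw [← h3]; exact T.d_p x h1 h2

theorem anc_ch {w x : V} (h : x ∈ T.ch w) : T.Anc w x := by
  obtain ⟨h1, h2, h3⟩ := T.mem_ch.1 h
  rw [← h3]; exact anc_p h1 h2

theorem Anc.ch_of_d {a v : V} (h : T.Anc a v) (hne : a ≠ v) (hd : T.d v ≤ T.d a + 1) :
    v ∈ T.ch a := by
  obtain ⟨x, hx, hx2⟩ := h.child hne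
  have := d_ch hx
  have : x = v := hx2.eq_of_d (by omega)
  exact this ▸ hx

theorem p_ne {v : V} (hv : v ∈ T.R) (hr : v ≠ T.r) : T.p v ≠ v := by
  intro h
  have := T.d_p v hv hr
  rw [h] at this; omega

theorem col_self {v : V} (hv : v ∈ T.R) : T.col v v = D := by
  by_cases hr : v = T.r
  · rw [hr, T.col_r, T.c_r]
  · rw [T.col_p v hv hr]; simp [shift]

theorem col_step {v m : V} (hv : v ∈ T.R) (hr : v ≠ T.r) (h1 : m ≠ v) (h2 : m ≠ T.p v) :
    T.col v m = T.col (T.p v) m := by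
  rw [T.col_p v hv hr]; simp [shift, Function.update_of_ne h1, Function.update_of_ne h2]

/-- Off the path the colours are the base colours. -/
theorem col_base {v m : V} (hv : v ∈ T.R) (h : ¬ T.Anc m v) : T.col v m = T.c m := by
  revert h
  refine T.ind (P := fun v => ¬ T.Anc m v → T.col v m = T.c m) ?_ ?_ v hv
  · intro _; rw [T.col_r]
  · intro v hv hr ih h
    have h1 : m ≠ v := fun e => h (e ▸ Anc.refl _ (e ▸ hv))
    have h2 : m ≠ T.p v := fun e => h (e ▸ anc_p hv hr)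
    rw [col_step hv hr h1 h2]
    exact ih (fun h3 => h (Anc.step _ v hv hr h3))

theorem col_p_self {v : V} (hv : v ∈ T.R) (hr : v ≠ T.r) : T.col (T.p v) v = T.c v := by
  refine col_base (T.p_mem v hv hr) (fun h => ?_)
  have := h.le
  have := T.d_p v hv hr
  omega

theorem col_par {v : V} (hv : v ∈ T.R) (hr : v ≠ T.r) : T.col v (T.p v) = T.c v := by
  rw [T.col_p v hv hr, shift, Function.update_of_ne (p_ne hv hr), Function.update_self,
    col_p_self hv hr]

/-- Two states on one path differ only between them. -/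
theorem col_diff {m z u : V} (h : T.Anc m z) (hu : ¬ (T.Anc m u ∧ T.Anc u z)) :
    T.col z u = T.col m u := by
  induction h with
  | refl _ => rfl
  | step v hv hr h ih =>
    have h1 : u ≠ v := fun e => hu ⟨by rw [e]; exact Anc.step _ v hv hr h,
      by rw [e]; exact Anc.refl _ hv⟩
    have h2 : u ≠ T.p v := fun e => hu ⟨e ▸ h, e ▸ anc_p hv hr⟩
    rw [col_step hv hr h1 h2]
    exact ih (fun h3 => hu ⟨h3.1, Anc.step _ v hv hr h3.2⟩)

/-- On the path every vertex has the base colour of its child. -/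
theorem col_anc {w x v : V} (hx : x ∈ T.ch w) (h : T.Anc x v) : T.col v w = T.c x := by
  obtain ⟨h1, h2, h3⟩ := T.mem_ch.1 hx
  rw [col_diff h, ← h3, col_par h1 h2]
  rintro ⟨h4, _⟩
  have := h4.le
  have := d_ch hx
  omega

theorem c_lt {v : V} (hv : v ∈ T.R) (hr : v ≠ T.r) : T.c v < D := by
  rw [← col_p_self hv hr]
  exact T.lt _ (T.p_mem v hv hr) v (T.arc_p v hv hr)

theorem col_lt {v m : V} (hv : v ∈ T.R) (hm : m ∈ T.R) (hne : m ≠ v) : T.col v m < D := by
  by_cases h : T.Anc m v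
  · obtain ⟨x, hx, hx2⟩ := h.child hne
    rw [col_anc hx hx2]
    exact c_lt (T.mem_ch.1 hx).1 (T.mem_ch.1 hx).2.1
  · rw [col_base hv h]
    exact c_lt hm (fun e => h (e ▸ anc_r hv))

/-- A child does not have the base colour of its parent. -/
theorem c_ch_ne {w x : V} (hx : x ∈ T.ch w) (hr : w ≠ T.r) : T.c x ≠ T.c w := by
  obtain ⟨h1, h2, h3⟩ := T.mem_ch.1 hx
  have hw : w ∈ T.R := h3 ▸ T.p_mem x h1 h2
  have := T.ne_p w hw x (h3 ▸ T.arc_p x h1 h2)
  rwa [col_par hw hr, ← h3, col_p_self h1 h2, h3] at this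

theorem shift_pcol {f : V → ℕ} {v u : V} (hf : PCol G D f)
    (hu : ∀ m, G.Adj v m → m ≠ u → f m ≠ f u) : PCol G D (shift D f v u) := by
  intro a b hab ha
  unfold shift at ha ⊢
  by_cases h1 : a = u
  · subst h1; simp at ha
  rw [Function.update_of_ne h1] at ha ⊢
  by_cases h2 : b = u
  · subst h2; rw [Function.update_self]; omega
  rw [Function.update_of_ne h2]
  by_cases h3 : a = v
  · subst h3
    rw [Function.update_self, Function.update_of_ne hab.ne.symm]
    exact (hu b hab h2).symm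
  rw [Function.update_of_ne h3] at ha ⊢
  by_cases h4 : b = v
  · subst h4
    rw [Function.update_self]
    exact hu a hab.symm h1
  rw [Function.update_of_ne h4]
  exact hf a b hab ha

theorem col_pcol {v : V} (hv : v ∈ T.R) : PCol G D (T.col v) := by
  refine T.ind (P := fun v => PCol G D (T.col v)) ?_ ?_ v hv
  · rw [T.col_r]; exact T.base
  · intro v hv hr ih
    rw [T.col_p v hv hr]
    exact shift_pcol ih (T.uniq _ (T.p_mem v hv hr) v (T.arc_p v hv hr))

theorem O_ne_p {v u : V} (hv : v ∈ T.R) (hu : u ∈ T.O v ∨ u ∈ T.X v) : u ≠ T.p v :=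
  fun e => T.ne_p v hv u hu (by rw [e])

/-- F2, depth form. -/
theorem F2 {u v : V} (hu : u ∈ T.R) (hv : v ∈ T.R) (h : G.Adj u v) (hd : T.d u + 2 ≤ T.d v) :
    v ∈ T.H u := by
  refine T.mem_H.2 ⟨h, col_lt hu hv h.ne.symm, fun h1 => ?_, fun h1 => ?_⟩
  · have := (T.clo u hu v (Or.inl h1)).2; omega
  · by_cases hr : u = T.r
    · rw [hr, T.p_r] at h1; rw [h1, T.d_r] at hd; omega
    · have := T.d_p u hu hr; rw [← h1] at this; omega

/-- Trichotomy for two adjacent tree vertices. -/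
theorem adj_cases {u v : V} (hu : u ∈ T.R) (hv : v ∈ T.R) (h : G.Adj u v) :
    v ∈ T.O u ∨ v ∈ T.H u ∨ u ∈ T.ch v := by
  by_cases h1 : v ∈ T.O u
  · exact Or.inl h1
  by_cases h2 : v = T.p u
  · refine Or.inr (Or.inr (T.mem_ch.2 ⟨hu, fun hr => ?_, h2.symm⟩))
    rw [hr, T.p_r] at h2
    exact h.ne (hr.trans h2.symm)
  · exact Or.inr (Or.inl (T.mem_H.2 ⟨h, col_lt hu hv h.ne.symm, h1, h2⟩))

end Tr

end Pool.Agent.Lib.MP_12eaff_co.Frz.Acc
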